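import Mathlib
import Pool.Agent.Common_LLL.Basic

/-!
# Halving (HL) and iterated partition (IP) with the local lemma

Self contained: fair coins on a finite type, Hoeffding, symmetric local lemma.
-/

set_option autoImplicit false

open Finset

namespace Pool.Agent.LAX.H23

/-! ## Hoeffding in counting form -/

section hoeffding

variable {Z : Type} [Fintype Z] [DecidableEq Z]

/-- The sign sum over `N`. -/
def sgs (N : Finset Z) (w : Z → Bool) : ℝ := ∑ z ∈ N, (if w z then (1 : ℝ) else -1)

omit [Fintype Z] [DecidableEq Z] in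
theorem sgs_eq (N : Finset Z) (w : Z → Bool) :
    sgs N w = 2 * ((N.filter (fun z => w z = true)).card : ℝ) - (N.card : ℝ) := by
  unfold sgs
  rw [Finset.sum_ite]
  simp only [Finset.sum_const, nsmul_eq_mul, mul_one, mul_neg]
  have h := Finset.card_filter_add_card_filter_not (s := N) (fun z => w z = true)
  have h2 : ((N.filter (fun z => w z = true)).card : ℝ) +
      ((N.filter (fun z => ¬ w z = true)).card : ℝ) = (N.card : ℝ) := by
    exact_mod_cast h
  linarith

theorem mgf (N : Finset Z) (s : ℝ) :
    ∑ w : Z → Bool, Real.exp (s * sgs N w) = 2 ^ (Fintype.card Z) * Real.cosh s ^ N.card := by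
  have h1 : ∀ w : Z → Bool, Real.exp (s * sgs N w) =
      ∏ z : Z, (if z ∈ N then Real.exp (s * (if w z then (1 : ℝ) else -1)) else 1) := by
    intro w
    unfold sgs
    rw [Finset.mul_sum, Real.exp_sum, Finset.prod_ite_mem, Finset.univ_inter]
  simp_rw [h1]
  have h2 := Finset.prod_univ_sum (fun _ : Z => (Finset.univ : Finset Bool))
    (fun z b => (if z ∈ N then Real.exp (s * (if b then (1 : ℝ) else -1)) else (1 : ℝ)))
  rw [Fintype.piFinset_univ] at h2
  rw [← h2]
  have h3 : ∀ z : Z, ∑ b : Bool, (if z ∈ N then Real.exp (s * (if b then (1 : ℝ) else -1))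
      else (1 : ℝ)) = if z ∈ N then 2 * Real.cosh s else 2 := by
    intro z
    rw [Fintype.sum_bool]
    by_cases hz : z ∈ N
    · simp only [hz, if_pos, mul_one]
      rw [Real.cosh_eq]
      simp
      ring
    · simp only [hz, if_false]
      norm_num
  simp_rw [h3]
  rw [Finset.prod_ite, Finset.prod_const, Finset.prod_const, mul_pow]
  have h4 : Finset.univ.filter (fun z => z ∈ N) = N := by
    ext z
    simp
  rw [h4]
  have h5 : (Finset.univ.filter (fun z => z ∉ N)).card = Fintype.card Z - N.card := by
    rw [← Finset.card_compl]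
    congr 1
    ext z
    simp
  rw [h5]
  have h6 : N.card ≤ Fintype.card Z := Finset.card_le_univ N
  have h7 : (2 : ℝ) ^ N.card * 2 ^ (Fintype.card Z - N.card) = 2 ^ Fintype.card Z := by
    rw [← pow_add]
    congr 1
    omega
  rw [← h7]
  ring

theorem tail_le (N : Finset Z) (lam : ℝ) (hlam : 0 < lam) (e : ℝ) (he : e = 1 ∨ e = -1) :
    ((Finset.univ.filter (fun w : Z → Bool =>
      2 * Real.sqrt (lam * N.card) < e * sgs N w)).card : ℝ) ≤
      Real.exp (-(2 * lam)) * 2 ^ (Fintype.card Z) := by
  by_cases hN : N.card = 0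
  · have h0 : Finset.univ.filter (fun w : Z → Bool =>
      2 * Real.sqrt (lam * N.card) < e * sgs N w) = ∅ := by
      apply Finset.filter_false_of_mem
      intro w _
      rw [Finset.card_eq_zero] at hN
      subst hN
      simp [sgs]
    rw [h0]
    simp
    positivity
  · have hn : (0 : ℝ) < N.card := by
      exact_mod_cast Nat.pos_of_ne_zero hN
    set n : ℝ := (N.card : ℝ) with hnd
    set s : ℝ := 2 * Real.sqrt (lam / n) with hs
    have hs0 : 0 ≤ s := by positivity
    -- Markov
    have h1 : ((Finset.univ.filter (fun w : Z → Bool =>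
        2 * Real.sqrt (lam * n) < e * sgs N w)).card : ℝ) *
        Real.exp (s * (2 * Real.sqrt (lam * n))) ≤
        ∑ w : Z → Bool, Real.exp ((s * e) * sgs N w) := by
      calc _ = ∑ w ∈ Finset.univ.filter (fun w : Z → Bool =>
            2 * Real.sqrt (lam * n) < e * sgs N w),
            Real.exp (s * (2 * Real.sqrt (lam * n))) := by
            rw [Finset.sum_const, nsmul_eq_mul]
        _ ≤ ∑ w ∈ Finset.univ.filter (fun w : Z → Bool =>
            2 * Real.sqrt (lam * n) < e * sgs N w), Real.exp ((s * e) * sgs N w) := by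
            apply Finset.sum_le_sum
            intro w hw
            rw [Finset.mem_filter] at hw
            apply Real.exp_le_exp.mpr
            have h0 := mul_le_mul_of_nonneg_left hw.2.le hs0
            calc s * (2 * Real.sqrt (lam * n)) ≤ s * (e * sgs N w) := h0
              _ = (s * e) * sgs N w := by ring
        _ ≤ _ := by
            apply Finset.sum_le_sum_of_subset_of_nonneg (Finset.filter_subset _ _)
            intro w _ _
            exact (Real.exp_pos _).le
    rw [mgf] at h1
    have h2 : Real.cosh (s * e) ≤ Real.exp (s ^ 2 / 2) := by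
      have := Real.cosh_le_exp_half_sq (s * e)
      have he2 : (s * e) ^ 2 = s ^ 2 := by
        rcases he with rfl | rfl <;> ring
      rwa [he2] at this
    have h3 : Real.cosh (s * e) ^ N.card ≤ Real.exp (2 * lam) := by
      calc Real.cosh (s * e) ^ N.card ≤ Real.exp (s ^ 2 / 2) ^ N.card :=
            pow_le_pow_left₀ (Real.cosh_pos _).le h2 _
        _ = Real.exp (n * (s ^ 2 / 2)) := by
            rw [← Real.exp_nat_mul]
        _ = Real.exp (2 * lam) := by
            congr 1
            rw [hs, mul_pow, Real.sq_sqrt (by positivity)]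
            field_simp
            try ring
    have h4 : s * (2 * Real.sqrt (lam * n)) = 4 * lam := by
      rw [hs]
      have : Real.sqrt (lam / n) * Real.sqrt (lam * n) = lam := by
        rw [← Real.sqrt_mul (by positivity)]
        have : lam / n * (lam * n) = lam ^ 2 := by
          field_simp
        rw [this, Real.sqrt_sq hlam.le]
      linear_combination 4 * this
    rw [h4] at h1
    have h5 : ((Finset.univ.filter (fun w : Z → Bool =>
        2 * Real.sqrt (lam * n) < e * sgs N w)).card : ℝ) * Real.exp (4 * lam) ≤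
        2 ^ Fintype.card Z * Real.exp (2 * lam) :=
      h1.trans (mul_le_mul_of_nonneg_left h3 (by positivity))
    have h6 : Real.exp (-(2 * lam)) * Real.exp (4 * lam) = Real.exp (2 * lam) := by
      rw [← Real.exp_add]
      congr 1
      ring
    have h7 : (0 : ℝ) < Real.exp (4 * lam) := Real.exp_pos _
    refine le_of_mul_le_mul_right ?_ h7
    rw [mul_comm (Real.exp (-(2 * lam))), mul_assoc, h6]
    exact h5

/-- The bad event: the deviation of the number of heads in `N` is larger than
`sqrt (lam |N|)`. -/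
noncomputable def bad (lam : ℝ) (N : Finset Z) : Finset (Z → Bool) :=
  Finset.univ.filter (fun w : Z → Bool => 2 * Real.sqrt (lam * N.card) < |sgs N w|)

theorem bad_card (N : Finset Z) (lam : ℝ) (hlam : 0 < lam) :
    ((bad lam N).card : ℝ) ≤ 2 * Real.exp (-(2 * lam)) * 2 ^ (Fintype.card Z) := by
  have hsub : bad lam N ⊆ Finset.univ.filter (fun w : Z → Bool =>
      2 * Real.sqrt (lam * N.card) < 1 * sgs N w) ∪
      Finset.univ.filter (fun w : Z → Bool =>
      2 * Real.sqrt (lam * N.card) < -1 * sgs N w) := by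
    intro w hw
    unfold bad at hw
    rw [Finset.mem_filter] at hw
    rw [Finset.mem_union, Finset.mem_filter, Finset.mem_filter]
    rcases lt_abs.mp hw.2 with h | h
    · left
      exact ⟨Finset.mem_univ _, by linarith⟩
    · right
      exact ⟨Finset.mem_univ _, by linarith⟩
  have h1 := (Finset.card_le_card hsub).trans (Finset.card_union_le _ _)
  have h2 : ((bad lam N).card : ℝ) ≤ (((Finset.univ.filter (fun w : Z → Bool =>
      2 * Real.sqrt (lam * N.card) < 1 * sgs N w)).card +
      (Finset.univ.filter (fun w : Z → Bool =>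
      2 * Real.sqrt (lam * N.card) < -1 * sgs N w)).card : ℕ) : ℝ) := by exact_mod_cast h1
  have h3 := tail_le N lam hlam 1 (Or.inl rfl)
  have h4 := tail_le N lam hlam (-1) (Or.inr rfl)
  push_cast at h2
  linarith

end hoeffding

/-! ## Halving -/

theorem hl {Z J : Type} [Fintype Z] [DecidableEq Z] [Fintype J] (N : J → Finset Z) (M : ℕ)
    (lam : ℝ) (hlam : 0 < lam) (hM : 1 ≤ M) (hexp : 8 * (M : ℝ) ^ 2 ≤ Real.exp (2 * lam))
    (hN : ∀ j, (N j).card ≤ M)
    (hd : ∀ z, (Finset.univ.filter (fun j => z ∈ N j)).card ≤ M) :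
    ∃ w : Z → Bool, ∀ j,
      |(((N j).filter (fun z => w z = true)).card : ℝ) - ((N j).card : ℝ) / 2| ≤
        Real.sqrt (lam * (N j).card) := by
  classical
  set p : ℝ := 2 * Real.exp (-(2 * lam)) with hp
  have hp0 : 0 < p := by positivity
  have hMp : 4 * (M : ℝ) ^ 2 * p ≤ 1 := by
    have h1 : Real.exp (2 * lam) * Real.exp (-(2 * lam)) = 1 := by
      rw [← Real.exp_add]
      simp
    have h2 : 8 * (M : ℝ) ^ 2 * Real.exp (-(2 * lam)) ≤ 1 := by
      rw [← h1]
      exact mul_le_mul_of_nonneg_right hexp (Real.exp_pos _).le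
    rw [hp]
    linarith
  have hM1 : (1 : ℝ) ≤ (M : ℝ) := by exact_mod_cast hM
  have hM2 : (1 : ℝ) ≤ (M : ℝ) ^ 2 := one_le_pow₀ hM1
  have hp4 : p ≤ 1 / 4 := by nlinarith
  obtain ⟨w, hw⟩ := Pool.Agent.Common_LLL.lll_finite (V := Z) (α := Bool)
    (fun j => bad lam (N j)) N (by
      intro j w w' hww' hb
      unfold bad at hb ⊢
      rw [Finset.mem_filter] at hb ⊢
      refine ⟨Finset.mem_univ _, ?_⟩
      have : sgs (N j) w' = sgs (N j) w := by
        unfold sgs
        apply Finset.sum_congr rfl
        intro z hz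
        rw [hww' z hz]
      rw [this]
      exact hb.2) (fun _ => 2 * p) (fun _ => by positivity) (fun _ => by linarith) (by
      intro j
      have hb := bad_card (N j) lam hlam
      have hc : (Fintype.card (Z → Bool) : ℝ) = 2 ^ Fintype.card Z := by
        rw [Fintype.card_fun, Fintype.card_bool]
        push_cast
        rfl
      rw [hc]
      have hnb : (Finset.univ.filter (fun i => i ≠ j ∧ ¬ Disjoint (N i) (N j))).card ≤ M ^ 2 := by
        have hsub : Finset.univ.filter (fun i => i ≠ j ∧ ¬ Disjoint (N i) (N j)) ⊆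
            (N j).biUnion (fun z => Finset.univ.filter (fun i => z ∈ N i)) := by
          intro i hi
          rw [Finset.mem_filter] at hi
          obtain ⟨_, _, hi3⟩ := hi
          rw [Finset.not_disjoint_iff] at hi3
          obtain ⟨z, hz1, hz2⟩ := hi3
          rw [Finset.mem_biUnion]
          exact ⟨z, hz2, by rw [Finset.mem_filter]; exact ⟨Finset.mem_univ _, hz1⟩⟩
        calc _ ≤ ((N j).biUnion (fun z => Finset.univ.filter (fun i => z ∈ N i))).card :=
              Finset.card_le_card hsub
          _ ≤ (N j).card * M := Finset.card_biUnion_le_card_mul _ _ _ (fun z _ => hd z)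
          _ ≤ M * M := Nat.mul_le_mul_right _ (hN j)
          _ = M ^ 2 := by ring
      rw [Finset.prod_const]
      set d := (Finset.univ.filter (fun i => i ≠ j ∧ ¬ Disjoint (N i) (N j))).card with hdd
      have hbern : 1 - (d : ℝ) * (2 * p) ≤ (1 - 2 * p) ^ d := by
        have := one_add_mul_le_pow (a := -(2 * p)) (by linarith) d
        have e1 : (1 : ℝ) + (d : ℝ) * -(2 * p) = 1 - (d : ℝ) * (2 * p) := by ring
        have e2 : (1 : ℝ) + -(2 * p) = 1 - 2 * p := by ring
        rw [e1, e2] at this
        exact this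
      have hd2 : (d : ℝ) ≤ (M : ℝ) ^ 2 := by exact_mod_cast hnb
      have hhalf : 1 / 2 ≤ (1 - 2 * p) ^ d := by
        have h3 : (d : ℝ) * (2 * p) ≤ 1 / 2 := by nlinarith
        linarith
      calc ((bad lam (N j)).card : ℝ) ≤ p * 2 ^ Fintype.card Z := by
            rw [hp]
            exact hb
        _ = 2 * p * (1 / 2) * 2 ^ Fintype.card Z := by ring
        _ ≤ 2 * p * (1 - 2 * p) ^ d * 2 ^ Fintype.card Z := by
            apply mul_le_mul_of_nonneg_right _ (by positivity)
            exact mul_le_mul_of_nonneg_left hhalf (by positivity))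
  refine ⟨w, fun j => ?_⟩
  have h1 := hw j
  unfold bad at h1
  rw [Finset.mem_filter] at h1
  push Not at h1
  have h2 := h1 (Finset.mem_univ _)
  rw [sgs_eq] at h2
  rw [abs_le] at h2 ⊢
  constructor <;> linarith [h2.1, h2.2]

/-! ## Square root forms -/

theorem sqrt_half_lower (lam n n' : ℝ) (hlam : 0 < lam) (_hn : 0 ≤ n)
    (h : |n' - n / 2| ≤ Real.sqrt (lam * n)) :
    Real.sqrt (n / 2) - Real.sqrt (2 * lam) ≤ Real.sqrt n' := by
  by_cases hc : n < 4 * lam
  · have h1 : Real.sqrt (n / 2) ≤ Real.sqrt (2 * lam) := Real.sqrt_le_sqrt (by linarith)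
    have h2 := Real.sqrt_nonneg n'
    linarith
  · push Not at hc
    apply Real.le_sqrt_of_sq_le
    have e1 : Real.sqrt (n / 2) ^ 2 = n / 2 := Real.sq_sqrt (by linarith)
    have e2 : Real.sqrt (2 * lam) ^ 2 = 2 * lam := Real.sq_sqrt (by linarith)
    have e3 : Real.sqrt (n / 2) * Real.sqrt (2 * lam) = Real.sqrt (lam * n) := by
      rw [← Real.sqrt_mul (by linarith)]
      congr 1
      ring
    have e4 : 2 * lam ≤ Real.sqrt (lam * n) := by
      apply Real.le_sqrt_of_sq_le
      nlinarith
    have h1 := (abs_le.mp h).1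
    nlinarith

theorem sqrt_half_upper (lam n n' : ℝ) (hlam : 0 < lam) (hn : 0 ≤ n)
    (h : |n' - n / 2| ≤ Real.sqrt (lam * n)) :
    Real.sqrt n' ≤ Real.sqrt (n / 2) + Real.sqrt (lam / 2) := by
  apply Real.sqrt_le_iff.mpr
  refine ⟨by positivity, ?_⟩
  have e1 : Real.sqrt (n / 2) ^ 2 = n / 2 := Real.sq_sqrt (by linarith)
  have e2 : Real.sqrt (lam / 2) ^ 2 = lam / 2 := Real.sq_sqrt (by linarith)
  have e3 : 2 * (Real.sqrt (n / 2) * Real.sqrt (lam / 2)) = Real.sqrt (lam * n) := by
    rw [← Real.sqrt_mul (by linarith) (lam / 2)]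
    have h2 : lam * n = 2 ^ 2 * (n / 2 * (lam / 2)) := by ring
    have h3 : Real.sqrt ((2 : ℝ) ^ 2) = 2 := Real.sqrt_sq (by norm_num)
    rw [h2, Real.sqrt_mul (by norm_num) (n / 2 * (lam / 2)), h3]
  have h1 := (abs_le.mp h).2
  nlinarith

/-! ## Iterated partition -/

theorem ip {Z J : Type} [Fintype Z] [DecidableEq Z] [Fintype J] (N : J → Finset Z) (M : ℕ)
    (lam : ℝ) (hlam : 0 < lam) (hM : 1 ≤ M) (hexp : 8 * (M : ℝ) ^ 2 ≤ Real.exp (2 * lam))
    (hN : ∀ j, (N j).card ≤ M)
    (hd : ∀ z, (Finset.univ.filter (fun j => z ∈ N j)).card ≤ M) (t : ℕ) :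
    ∃ col : Z → Fin (2 ^ t), ∀ j i,
      Real.sqrt (((N j).card : ℝ) / 2 ^ t) - 5 * Real.sqrt lam ≤
        Real.sqrt ((((N j).filter (fun z => col z = i)).card : ℝ)) ∧
      Real.sqrt ((((N j).filter (fun z => col z = i)).card : ℝ)) ≤
        Real.sqrt (((N j).card : ℝ) / 2 ^ t) + 5 / 2 * Real.sqrt lam := by
  classical
  have hs2 : Real.sqrt 2 ^ 2 = 2 := Real.sq_sqrt (by norm_num)
  have hs2p : 0 < Real.sqrt 2 := Real.sqrt_pos.mpr (by norm_num)
  have hs2a : 1.414 ≤ Real.sqrt 2 := by
    apply Real.le_sqrt_of_sq_le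
    norm_num
  have hs2b : Real.sqrt 2 ≤ 1.415 := by
    apply Real.sqrt_le_iff.mpr
    constructor <;> norm_num
  have hsl : 0 ≤ Real.sqrt lam := Real.sqrt_nonneg _
  induction t with
  | zero =>
    refine ⟨fun _ => ⟨0, by norm_num⟩, ?_⟩
    intro j i
    have hi : ∀ z ∈ N j, (⟨0, by norm_num⟩ : Fin (2 ^ 0)) = i := by
      intro z _
      apply Fin.ext
      have := i.2
      simp only [pow_zero] at this
      show 0 = (i : ℕ)
      omega
    rw [Finset.filter_true_of_mem hi, pow_zero, div_one]
    constructor <;> linarith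
  | succ t ih =>
    obtain ⟨col, hcol⟩ := ih
    obtain ⟨w, hw⟩ := hl (J := J × Fin (2 ^ t))
      (fun p => (N p.1).filter (fun z => col z = p.2)) M lam hlam hM hexp
      (fun p => (Finset.card_filter_le _ _).trans (hN p.1)) (by
        intro z
        refine le_trans ?_ (hd z)
        apply Finset.card_le_card_of_injOn (fun p => p.1)
        · intro p hp
          simp only [Finset.coe_filter, Finset.mem_filter, Finset.mem_univ, true_and,
            Set.mem_ofPred_eq] at hp ⊢
          exact hp.1
        · intro p hp q hq hpq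
          simp only [Finset.coe_filter, Finset.mem_filter, Finset.mem_univ, true_and,
            Set.mem_ofPred_eq] at hp hq
          exact Prod.ext hpq (hp.2.symm.trans hq.2))
    let col' : Z → Fin (2 ^ (t + 1)) := fun z =>
      Fin.cast (pow_succ 2 t).symm (finProdFinEquiv (col z, if w z = true then (1 : Fin 2) else 0))
    refine ⟨col', ?_⟩
    intro j i'
    obtain ⟨⟨i, e⟩, hie⟩ : ∃ q : Fin (2 ^ t) × Fin 2,
        i' = Fin.cast (pow_succ 2 t).symm (finProdFinEquiv q) := by
      refine ⟨finProdFinEquiv.symm (Fin.cast (pow_succ 2 t) i'), ?_⟩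
      rw [Equiv.apply_symm_apply]
      rfl
    have hfil : (N j).filter (fun z => col' z = i') =
        ((N j).filter (fun z => col z = i)).filter
          (fun z => (if w z = true then (1 : Fin 2) else 0) = e) := by
      rw [Finset.filter_filter]
      apply Finset.filter_congr
      intro z _
      rw [hie]
      constructor
      · intro h
        have h2 := finProdFinEquiv.injective (Fin.cast_injective _ h)
        exact ⟨congrArg Prod.fst h2, congrArg Prod.snd h2⟩
      · rintro ⟨h1, h2⟩
        show Fin.cast _ (finProdFinEquiv (col z, if w z = true then (1 : Fin 2) else 0)) = _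
        rw [h1, h2]
    rw [hfil]
    set A := (N j).filter (fun z => col z = i) with hA
    have hdev : |((A.filter (fun z => (if w z = true then (1 : Fin 2) else 0) = e)).card : ℝ) -
        (A.card : ℝ) / 2| ≤ Real.sqrt (lam * A.card) := by
      have h0 := hw (j, i)
      simp only at h0
      have he : e = 0 ∨ e = 1 := by
        fin_cases e
        · left; rfl
        · right; rfl
      rcases he with rfl | rfl
      · have h3 : A.filter (fun z => (if w z = true then (1 : Fin 2) else 0) = 0) =
            A.filter (fun z => ¬ w z = true) := by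
          apply Finset.filter_congr
          intro z _
          by_cases hz : w z = true <;> simp [hz]
        rw [h3]
        have h4 := Finset.card_filter_add_card_filter_not (s := A) (fun z => w z = true)
        have h5 : ((A.filter (fun z => w z = true)).card : ℝ) +
            ((A.filter (fun z => ¬ w z = true)).card : ℝ) = (A.card : ℝ) := by
          exact_mod_cast h4
        have h6 : ((A.filter (fun z => ¬ w z = true)).card : ℝ) - (A.card : ℝ) / 2 =
            -(((A.filter (fun z => w z = true)).card : ℝ) - (A.card : ℝ) / 2) := by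
          linarith
        rw [h6, abs_neg]
        exact h0
      · have h3 : A.filter (fun z => (if w z = true then (1 : Fin 2) else 0) = 1) =
            A.filter (fun z => w z = true) := by
          apply Finset.filter_congr
          intro z _
          by_cases hz : w z = true <;> simp [hz]
        rw [h3]
        exact h0
    have hA0 : (0 : ℝ) ≤ A.card := Nat.cast_nonneg _
    have hlo := sqrt_half_lower lam _ _ hlam hA0 hdev
    have hup := sqrt_half_upper lam _ _ hlam hA0 hdev
    obtain ⟨ih1, ih2⟩ := hcol j i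
    have k1 : Real.sqrt ((A.card : ℝ) / 2) = Real.sqrt (A.card : ℝ) / Real.sqrt 2 :=
      Real.sqrt_div hA0 2
    have k2 : Real.sqrt (2 * lam) = Real.sqrt 2 * Real.sqrt lam :=
      Real.sqrt_mul (by norm_num) lam
    have k3 : Real.sqrt (lam / 2) = Real.sqrt lam / Real.sqrt 2 := Real.sqrt_div hlam.le 2
    have k4 : Real.sqrt (((N j).card : ℝ) / 2 ^ (t + 1)) =
        Real.sqrt (((N j).card : ℝ) / 2 ^ t) / Real.sqrt 2 := by
      rw [← Real.sqrt_div (by positivity)]
      congr 1
      rw [pow_succ]
      field_simp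
    rw [k1, k2] at hlo
    rw [k1, k3] at hup
    rw [k4]
    constructor
    · refine le_trans ?_ hlo
      have h7 : (Real.sqrt (((N j).card : ℝ) / 2 ^ t) - 5 * Real.sqrt lam) / Real.sqrt 2 ≤
          Real.sqrt (A.card : ℝ) / Real.sqrt 2 :=
        div_le_div_of_nonneg_right ih1 hs2p.le
      have h8 : 5 * Real.sqrt lam / Real.sqrt 2 + Real.sqrt 2 * Real.sqrt lam ≤
          5 * Real.sqrt lam := by
        have h9 : 5 / Real.sqrt 2 + Real.sqrt 2 ≤ 5 := by
          have : 5 / Real.sqrt 2 ≤ 5 / 1.414 :=
            div_le_div_of_nonneg_left (by norm_num) (by norm_num) hs2a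
          have h10 : (5 : ℝ) / 1.414 ≤ 3.54 := by norm_num
          linarith
        have h11 : 5 * Real.sqrt lam / Real.sqrt 2 + Real.sqrt 2 * Real.sqrt lam =
            (5 / Real.sqrt 2 + Real.sqrt 2) * Real.sqrt lam := by ring
        rw [h11]
        exact mul_le_mul_of_nonneg_right h9 hsl
      rw [sub_div] at h7
      linarith
    · refine le_trans hup ?_
      have h7 : Real.sqrt (A.card : ℝ) / Real.sqrt 2 ≤
          (Real.sqrt (((N j).card : ℝ) / 2 ^ t) + 5 / 2 * Real.sqrt lam) / Real.sqrt 2 :=
        div_le_div_of_nonneg_right ih2 hs2p.le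
      have h8 : 5 / 2 * Real.sqrt lam / Real.sqrt 2 + Real.sqrt lam / Real.sqrt 2 ≤
          5 / 2 * Real.sqrt lam := by
        have h9 : (7 / 2) / Real.sqrt 2 ≤ 5 / 2 := by
          have : (7 / 2) / Real.sqrt 2 ≤ (7 / 2) / 1.414 :=
            div_le_div_of_nonneg_left (by norm_num) (by norm_num) hs2a
          have h10 : ((7 : ℝ) / 2) / 1.414 ≤ 2.5 := by norm_num
          linarith
        have h11 : 5 / 2 * Real.sqrt lam / Real.sqrt 2 + Real.sqrt lam / Real.sqrt 2 =
            (7 / 2) / Real.sqrt 2 * Real.sqrt lam := by ring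
        rw [h11]
        exact mul_le_mul_of_nonneg_right h9 hsl
      rw [add_div] at h7
      linarith

end Pool.Agent.LAX.H23
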